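import Pool.Agent.Helper47.SR.Goals

/-!
# Project NF (MP_0130f7_co): symmetric chain decompositions of `B_n / G` for nearly free `G`

Definitions.  `G` is a permutation group of degree `n` all of whose point stabilisers have the same
order `K` and in which an element different from `1` fixes at most `f` points.
-/

set_option autoImplicit false

namespace Pool.Agent.Helper49.NF

open Finset
open Pool.Agent.Helper47.SR (Grp mv lev wt Ew W IsInv up dn StarAt HalfStarAt)

variable {n : ℕ}

open Classical in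
/-- the elements of `G` -/
noncomputable def els (G : Grp n) : Finset (Equiv.Perm (Fin n)) := univ.filter (fun γ => γ ∈ G)

/-- the order of the stabiliser of the point `x` -/
noncomputable def stc (G : Grp n) (x : Fin n) : ℕ := #((els G).filter (fun γ => γ x = x))

/-- the number of the fixed points of `γ` -/
def fx (γ : Equiv.Perm (Fin n)) : ℕ := #((univ : Finset (Fin n)).filter (fun x => γ x = x))

/-- nearly free groups -/
structure Nfr (n K f : ℕ) (G : Grp n) : Prop where
  n1 : 1 ≤ n
  K1 : 1 ≤ K
  st : ∀ x, stc G x = K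
  fix : ∀ γ ∈ G, γ ≠ 1 → fx γ ≤ f

/-- the weighted number of the `j`-sets with stabiliser of order at least `s` -/
noncomputable def Nn (G : Grp n) (j s : ℕ) : ℕ :=
  ∑ A ∈ (lev n j).filter (fun A => s ≤ 1 + wt G A), (1 + wt G A)

open Classical in
/-- the number of the `H`-invariant `j`-sets -/
noncomputable def inv (H : Grp n) (j : ℕ) : ℕ := #((lev n j).filter (fun A => ∀ γ ∈ H, mv γ A = A))

/-- `∑ f ^ (p - 1) * n ^ r` over `p + 2 r ≤ j` (`p - 1 = 0` for `p = 0`) -/
def Ma (n f j : ℕ) : ℕ :=
  ∑ p ∈ range (j + 1), ∑ r ∈ range (j + 1), if p + 2 * r ≤ j then f ^ (p - 1) * n ^ r else 0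

/-- `∑ C(f, p) * C(n / 2, r)` over `p + 2 r ≤ j` -/
def Mb (n f j : ℕ) : ℕ :=
  ∑ p ∈ range (j + 1), ∑ r ∈ range (j + 1),
    if p + 2 * r ≤ j then f.choose p * (n / 2).choose r else 0

/-- the error term of the middle-out condition between the levels `m` and `m + 1` -/
noncomputable def TT (G : Grp n) (m : ℕ) : ℕ :=
  (m + 1) * Ew G (lev n (m + 1)) + (n - m) * Ew G (lev n m)

/-- bound for `Nn G m s` and `Nn G (m + 1) s` -/
def Bb (n K f m s : ℕ) : ℕ := 4 ^ f * (K * n) ^ (s + 1) * (n + 1) ^ 2 * (n / s).choose (m / s)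

/-- the base 2 logarithm, rounded up: `n ≤ 2 ^ Lg n < 2 n` for `n ≥ 2` -/
def Lg (n : ℕ) : ℕ := Nat.clog 2 n

/-- the middle-out inequality for the invariant families `S`, `Y` of `m`-sets -/
def Sat (G : Grp n) (m : ℕ) (S Y : Finset (Finset (Fin n))) : Prop :=
  W G (dn m Y) + W G S ≤ W G (up m S) + W G Y

/-- two invariant families of `m`-sets, the first one of larger weight -/
structure Fam (G : Grp n) (m : ℕ) (S Y : Finset (Finset (Fin n))) : Prop where
  S1 : S ⊆ lev n m
  Y1 : Y ⊆ lev n m
  Si : IsInv G S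
  Yi : IsInv G Y
  lt : W G Y < W G S

end Pool.Agent.Helper49.NF
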