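import Pool.Agent.Helper49.NF.Star

/-!
# Project NF: from `StarAt` to the theorem
-/

set_option autoImplicit false

namespace Pool.Agent.Helper49.NF

open Finset
open Pool.Agent.Helper47.SR (Grp mv lev wt Ew W IsInv up dn StarAt HalfStarAt QL QR)

theorem stc_pos {n : ℕ} (G : Grp n) (x : Fin n) : 1 ≤ stc G x := by
  classical
  unfold stc
  rw [Nat.one_le_iff_ne_zero, Finset.card_ne_zero]
  refine ⟨1, ?_⟩
  rw [Finset.mem_filter]
  refine ⟨?_, rfl⟩
  unfold els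
  rw [Finset.mem_filter]
  exact ⟨Finset.mem_univ _, G.one_mem⟩

theorem final_of
    (hstar : ∃ n₀ : ℕ, ∀ n ≥ n₀, ∀ (K f : ℕ) (G : Grp n), Nfr n K f G → K ^ 100 ≤ n →
      f ^ 5 ≤ n ^ 4 → ∀ m, 2 * (m + 1) ≤ n → StarAt G m)
    (hBASE : Pool.Agent.Helper47.SR.Goal_BASE) (hCONV : Pool.Agent.Helper47.SR.Goal_CONV)
    (hQSYM : Pool.Agent.Helper47.SR.Goal_QSYM) (hQST : Pool.Agent.Helper47.SR.Goal_QST)
    (hQMID : Pool.Agent.Helper47.SR.Goal_QMID) (hDIH : Goal_DIH) :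
    ∃ n₀ : ℕ,
      (∀ n ≥ n₀, ∀ G : Subgroup (Equiv.Perm (Fin n)),
        (∀ x y, stc G x = stc G y) → (∀ x, stc G x ^ 100 ≤ n) →
        (∀ γ ∈ G, γ ≠ 1 → fx γ ^ 5 ≤ n ^ 4) → Pool.Agent.Helper47.SR.QuotientHasSCD n G) ∧
      ∀ n ≥ n₀, Pool.Agent.Helper47.SR.QuotientHasSCD n
        (Subgroup.closure {finRotate n, (Fin.revPerm : Equiv.Perm (Fin n))}) := by
  classical
  obtain ⟨n₀, h⟩ := hstar
  have main : ∀ n ≥ n₀ + 1, ∀ (K f : ℕ) (G : Grp n), Nfr n K f G → K ^ 100 ≤ n → f ^ 5 ≤ n ^ 4 →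
      Pool.Agent.Helper47.SR.QuotientHasSCD n G := by
    intro n hn K f G hG hK hf
    refine hCONV n G ?_
    refine hBASE n (QL G) QR (hQSYM n G).1 (hQSYM n G).2 ?_ ?_
    · intro m hm S hS T hT hlt _ _
      exact hQST n G m hm (h n (by omega) K f G hG hK hf m hm) S hS T hT hlt
    · intro m hm S hS _
      exact hQMID n G m hm S hS
  refine ⟨n₀ + 1 + 2 ^ 100, ?_, ?_⟩
  · intro n hn G hst hst2 hfx
    have hn1 : 1 ≤ n := by omega
    let x0 : Fin n := ⟨0, by omega⟩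
    let f : ℕ := ((els G).filter (fun γ => γ ≠ 1)).sup fx
    have hf : ∀ γ ∈ G, γ ≠ 1 → fx γ ≤ f := by
      intro γ hγ hγ1
      apply Finset.le_sup (f := fx)
      rw [Finset.mem_filter]
      refine ⟨?_, hγ1⟩
      unfold els
      rw [Finset.mem_filter]
      exact ⟨Finset.mem_univ _, hγ⟩
    have hf5 : f ^ 5 ≤ n ^ 4 := by
      rcases ((els G).filter (fun γ => γ ≠ 1)).eq_empty_or_nonempty with he | hne
      · have : f = 0 := by
          show ((els G).filter (fun γ => γ ≠ 1)).sup fx = 0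
          rw [he]; rfl
        rw [this]; simp
      · obtain ⟨γ, hγ, hγe⟩ := Finset.exists_mem_eq_sup _ hne fx
        have : f = fx γ := hγe
        rw [this]
        rw [Finset.mem_filter] at hγ
        have h2 := hγ.1
        unfold els at h2
        rw [Finset.mem_filter] at h2
        exact hfx γ h2.2 hγ.2
    exact main n (by omega) (stc G x0) f G
      ⟨hn1, stc_pos G x0, fun x => hst x x0, hf⟩ (hst2 x0) hf5
  · intro n hn
    obtain ⟨K, hK2, hK⟩ := hDIH n (by omega)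
    refine main n (by omega) K 2 _ hK ?_ ?_
    · calc K ^ 100 ≤ 2 ^ 100 := Nat.pow_le_pow_left hK2 _
        _ ≤ n := by omega
    · have h3 : 3 ≤ n := by omega
      calc 2 ^ 5 ≤ 3 ^ 4 := by norm_num
        _ ≤ n ^ 4 := Nat.pow_le_pow_left h3 _

end Pool.Agent.Helper49.NF
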