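import Pool.Agent.Helper49.NF.Defs

/-!
# Project NF (MP_0130f7_co): goals

THEOREM.  There is `n₀` such that for all `n ≥ n₀` and all `G ≤ S_n` all of whose point stabilisers
have the same order `K`, `K ^ 100 ≤ n` (for instance: `G` transitive of order at most `n ^ 1.01`, or `G`
semiregular), and in which every element different from `1` fixes at most `n ^ (4/5)` points, the
quotient `B_n / G` has a symmetric chain decomposition; e.g. binary bracelets (dihedral groups).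

Every `Goal_X` is a packet; its docstring is the paper proof.  Prove it as `theorem goal_X : Goal_X`
(goals used are hypotheses, e.g. `theorem goal_EJ (h1 : Goal_STB) (h2 : Goal_CYC) : Goal_EJ`) in your own
file.  `Pool.Agent.Helper47.SR` (imported, definitions in `Pool/Agent/Helper47/SR/Goals.lean`, all its
goals are proved, see `Pool/Agent/Helper47/SR/Final.lean` for the names) provides: `lev n m` all
`m`-sets; `wt G A` the number of `γ ≠ 1` in `G` fixing the set `A` (`1 + wt G A = |Stab A|`);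
`W G F = ∑_{A∈F} (1 + wt G A) = #F + Ew G F`; `up m F` / `dn m F` the `(m+1)`-sets having some / all of their
`m`-subsets in `F`; `Goal_KKA`, `Goal_KKB` (Kruskal–Katona in ratio form), `Goal_STAN`, `Goal_TR2`, `Goal_SYM`.
With `z = n` (`w = n`): `(m+1) #(dn m Y) ≤ (n-m) #Y` and `(n-m) #S ≤ (m+1) #(up m S)`.
-/

set_option autoImplicit false

namespace Pool.Agent.Helper49.NF

open Finset
open Pool.Agent.Helper47.SR (Grp mv lev wt Ew W IsInv up dn StarAt HalfStarAt)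

/-! ## Part 1: counting in nearly free groups -/

/-- **STB.** Basic facts.
Proof.  (5) If `γ₀ u = v` then `γ ↦ γ₀⁻¹ γ` maps `{γ ∈ G | γ u = v}` injectively into the stabiliser of
`u`.  (1) For a point `x` (`n ≥ 1`) `G` is the union of the `n` sets `{γ ∈ G | γ x = v}`; use (5).
(3) Choose `u ∈ A`; the elements of `G` which map `A` to `A` (`1` and those counted by `wt`) map `u` to
one of the points of `A`; use (5).  (4) `∑_{γ∈G} fx γ = ∑_x stc G x = K n` (double counting). -/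
def Goal_STB : Prop :=
  ∀ (n K f : ℕ) (G : Grp n), Nfr n K f G →
    Nat.card G ≤ K * n ∧ #(els G) = Nat.card G ∧
    (∀ A : Finset (Fin n), A.Nonempty → 1 + wt G A ≤ K * #A) ∧
    ∑ γ ∈ (els G).filter (fun γ => γ ≠ 1), fx γ ≤ K * n ∧
    ∀ u v, #((els G).filter (fun γ => γ u = v)) ≤ K

/-- **CYC.** Sets invariant under one permutation.
Proof.  For an invariant `A` let `P` = the fixed points of `γ` in `A`, and `R` = the set of the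
`c ∈ γ.cycleFactorsFinset` with `c.support ⊆ A`.  `A` is the union of `P` and the supports of the
`c ∈ R` (a point `x ∈ A` with `γ x ≠ x` lies in the support of the cycle of `x`, which is contained in `A`
as `A` is invariant), so `A` is determined by `(P, R)`.  `γ` has at most `n / 2` cycles of length `≥ 2`
(disjoint supports of size `≥ 2`).  With `p = #P`, `r = #R`: `p + 2 r ≤ j`.  For given `p`, `r` there are at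
most `C(fx γ, p) C(n/2, r)` pairs. -/
def Goal_CYC : Prop :=
  ∀ (n : ℕ) (γ : Equiv.Perm (Fin n)) (j : ℕ),
    #((lev n j).filter (fun A => mv γ A = A)) ≤
      ∑ p ∈ range (j + 1), ∑ r ∈ range (j + 1),
        if p + 2 * r ≤ j then (fx γ).choose p * (n / 2).choose r else 0

/-- **EJ** (hypotheses STB, CYC).  Total excess weight of a level.
Proof.  Double counting: `Ew G (lev n j) = ∑_{γ∈G, γ≠1} #{A | mv γ A = A}`.  Second part: CYC,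
`fx γ ≤ f`, `C(·, p)` is monotone, `|G| ≤ K n`.  First part: exchange the sums; for given `(p, r)`:
`C(n/2, r) ≤ n^r`; if `p = 0`: `|G| ≤ K n`; if `p ≥ 1`: `C(fx γ, p) ≤ (fx γ)^p ≤ fx γ * f^(p-1)` and
`∑_{γ≠1} fx γ ≤ K n`. -/
def Goal_EJ : Prop :=
  ∀ (n K f : ℕ) (G : Grp n), Nfr n K f G → ∀ j,
    Ew G (lev n j) ≤ K * n * Ma n f j ∧ Ew G (lev n j) ≤ K * n * Mb n f j

/-- **ORBC.** Sets invariant under a group in which the elements `≠ 1` have few fixed points.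
Proof.  `h = |H| ≥ s`.  The map `A ↦` (set of the `H`-orbits contained in `A`) is injective on invariant sets.
Call an orbit regular if it has `h` elements.  (i) At most `n / h ≤ n / s` orbits are regular, and an
invariant `j`-set contains at most `j / h` of them.  (ii) At most `2 f` orbits are not regular: for every
orbit `O`, `∑_{x∈O} |H_x| = h`, and `|H_x| ≥ 2` on non-regular orbits, so
`h * (number) = ∑_{x∈Nr} |H_x| ≤ 2 ∑_{x∈Nr} (|H_x| - 1) = 2 ∑_{γ≠1} (number of fixed points) ≤ 2 (h-1) f`.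
So the number of invariant `j`-sets is at most `2^(2f) ∑_{i ≤ j/h} C(n/h, i)`, and each term is
`≤ C(n/s, i) ≤ C(n/s, j/s)` because `i ≤ j/s ≤ (n/s)/2` (binomials are increasing up to the middle); there are
at most `j + 1 ≤ n + 1` terms. -/
def Goal_ORBC : Prop :=
  ∀ (n f s j : ℕ) (H : Grp n), (∀ γ ∈ H, γ ≠ 1 → fx γ ≤ f) → 1 ≤ s → s ≤ Nat.card H → 2 * j ≤ n →
    inv H j ≤ 4 ^ f * ((n + 1) * (n / s).choose (j / s))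

/-- **ORBK.** Sets invariant under a group with small point stabilisers.
Proof.  Every `H`-orbit `O` has `|H| = |O| |H_x| ≤ K |O|`.  If an invariant `j`-set contains `q` orbits then
`q s ≤ q |H| ≤ K j`, so `q ≤ K j / s`.  The set is determined by its set of orbits; there are at most `n`
orbits, and a set with at most `n` elements has at most `(n+1)^r` subsets of size at most `r`. -/
def Goal_ORBK : Prop :=
  ∀ (n K s j : ℕ) (H : Grp n), (∀ x, stc H x ≤ K) → 1 ≤ s → s ≤ Nat.card H →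
    inv H j ≤ (n + 1) ^ (K * j / s)

/-- **NS** (hypotheses STB, ORBC, ORBK).  Sets with large stabiliser.
Proof.  If `1 + wt G A ≥ s` choose `s` different elements of `G` which fix the set `A`, i.e. a map
`τ : Fin s → G`; the group `H` generated by its values has order `≥ s`, is contained in `G`
(so `stc H x ≤ K` and the elements `≠ 1` have `≤ f` fixed points), and `A` is `H`-invariant.  There are at
most `|G|^s ≤ (K n)^s` maps `τ`; `1 + wt G A ≤ K j ≤ K n` by STB (`j ≥ 1`).  Use ORBK, ORBC. -/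
def Goal_NS : Prop :=
  ∀ (n K f : ℕ) (G : Grp n), Nfr n K f G → ∀ j s, 1 ≤ s → 1 ≤ j → j ≤ n →
    Nn G j s ≤ (K * n) ^ (s + 1) * (n + 1) ^ (K * j / s) ∧
    (2 * j ≤ n → Nn G j s ≤ (K * n) ^ (s + 1) * (4 ^ f * ((n + 1) * (n / s).choose (j / s))))

/-- **NSB** (hypothesis NS).  Proof.  `(m+1)/s` is `m/s` or `m/s + 1` and `C(N, b+1) ≤ N C(N, b)`,
`N = n/s ≤ n`.  Last two claims: only the sets with `wt ≥ 1` contribute to `Ew`, and `wt ≤ 1 + wt`. -/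
def Goal_NSB : Prop :=
  ∀ (n K f : ℕ) (G : Grp n), Nfr n K f G → ∀ m, 1 ≤ m → 2 * (m + 1) ≤ n →
    (∀ s, 1 ≤ s → Nn G m s ≤ Bb n K f m s ∧ Nn G (m + 1) s ≤ Bb n K f m s) ∧
    Ew G (lev n m) ≤ Bb n K f m 2 ∧ Ew G (lev n (m + 1)) ≤ Bb n K f m 2

/-! ## Part 2: general inequalities -/

/-- **SB** (hypotheses `Goal_KKA`, `Goal_KKB`).  Proof.  As CASEB (`Pool/Agent/Helper14/SR/CASEB.lean`).
KKA with `z`: `(m+1) W(dn Y) ≤ (z-m) #Y + (m+1) Ew(lev (m+1)) ≤ (z-m) W(Y) + (m+1) E_{m+1}`; KKB with `w = n`: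
`(m+1) W(up S) ≥ (n-m) #S ≥ (n-m) (W(S) - E_m)`.  So
`(m+1) [W(up S) + W(Y) - W(dn Y) - W(S)] ≥ (n-2m-1) W(S) - (z-2m-1) W(Y) - (n-m) E_m - (m+1) E_{m+1}`
`= (n-2m-1) (W(S) - W(Y)) + (n-z) W(Y) - TT ≥ 0` (computation in `ℤ`). -/
def Goal_SB : Prop :=
  ∀ (n m z : ℕ) (G : Grp n) (S Y : Finset (Finset (Fin n))), 1 ≤ m → 2 * (m + 1) ≤ n → m ≤ z →
    z ≤ n → Fam G m S Y → #Y ≤ z.choose m →
    TT G m ≤ (n - z) * W G Y + (n - 2 * m - 1) * (W G S - W G Y) → Sat G m S Y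

/-- **CLS** (hypotheses `Goal_KKA`, `Goal_KKB`).  Proof.  Write `w = W(S)`.
`W(S) ≤ s #S + Nn G m (s+1)` (sets with `1 + wt ≤ s` and the others), so `64 s #S ≥ 63 w`.  KKB with
`w = n - m + j`: `(n-m) #S ≤ (j+1) #(up S)`.  So `64 s (j+1) W(up S) ≥ 63 (n-m) w`.
`W(dn Y) ≤ s #(dn Y) + Nn G (m+1) (s+1)`, KKA with `z = m+i`: `(m+1) #(dn Y) ≤ i #Y`, so
`64 (m+1) W(dn Y) ≤ 64 s i W(Y) + (m+1) w`.  Multiply the claim by `64 (m+1) s (j+1)`: it suffices that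
`s (j+1) [64 s i W(Y) + (m+1) w] + 64 (m+1) s (j+1) w ≤ 63 (n-m) (m+1) w + 64 (m+1) s (j+1) W(Y)`.
If `s i ≤ m+1`: `64 s (j+1) s i W(Y) ≤ 64 s (j+1) (m+1) W(Y)`, use the last hypothesis.  If
`s i > m+1`: `64 s (j+1) (s i - (m+1)) W(Y) ≤ 64 s (j+1) (s i - (m+1)) w`, use the hypothesis before. -/
def Goal_CLS : Prop :=
  ∀ (n m s i j : ℕ) (G : Grp n) (S Y : Finset (Finset (Fin n))), 1 ≤ m → 2 * (m + 1) ≤ n → 1 ≤ s →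
    Fam G m S Y → #S ≤ (n - m + j).choose (n - m) → #Y ≤ (m + i).choose m →
    64 * Nn G m (s + 1) ≤ W G S → 64 * Nn G (m + 1) (s + 1) ≤ W G S →
    64 * (s * (j + 1) * (s * i)) + s * (j + 1) * (m + 1) ≤ 63 * ((n - m) * (m + 1)) →
    65 * (s * (j + 1) * (m + 1)) ≤ 63 * ((n - m) * (m + 1)) → Sat G m S Y

/-- **T3** (hypothesis `Goal_KKA`).  Proof.  `W(dn Y) ≤ 2 #(dn Y) + Nn G (m+1) 3`, so
`63 W(dn Y) ≤ 128 #(dn Y)`; `(m+1) #(dn Y) ≤ i #Y`. -/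
def Goal_T3 : Prop :=
  ∀ (n m i : ℕ) (G : Grp n) (Y : Finset (Finset (Fin n))), 1 ≤ m → Y ⊆ lev n m →
    #Y ≤ (m + i).choose m → 64 * Nn G (m + 1) 3 ≤ W G (dn m Y) → 128 * i ≤ 63 * (m + 1) →
    W G (dn m Y) ≤ W G Y

/-- **RED** (hypotheses STB, SB, `Goal_SYM`, `Goal_STAN`, `Goal_TR2`, `Goal_KKA`).
Proof.  By SYM let `2 W(Y) ≤ W(lev n m) = C(n,m) + Ew G (lev n m)`.  If `W(dn Y) < 2^(m+1)`: TR2 and
STAN.  Otherwise, by STB (`1 + wt ≤ K (m+1)` on `dn Y`) and KKA with `z = n`: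
`2^(m+1) ≤ W(dn Y) ≤ K (m+1) #(dn Y) ≤ K (n-m) #Y ≤ K n W(Y) < K n W(S)`.  If `TT ≤ W(Y)`: SB with `z = n-1`;
`#Y ≤ C(n-1,m)` because `2 n #Y ≤ n C(n,m) + n Ew ≤ (n+2) C(n,m) ≤ 2 (n-m) C(n,m) = 2 n C(n-1,m)`.
If `W(Y) < TT` and `TT ≤ (n-2m-1) (W(S) - W(Y))`: SB with `z = n`.  Otherwise `W(S) - W(Y) < TT`
(`n-2m-1 ≥ 1`), so `W(S) < 2 TT`. -/
def Goal_RED : Prop :=
  ∀ (n K f m : ℕ) (G : Grp n), Nfr n K f G → 1 ≤ m → 2 * (m + 1) ≤ n →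
    n * Ew G (lev n m) ≤ 2 * n.choose m →
    (∀ S Y, Fam G m S Y → 2 ^ (m + 1) ≤ W G (dn m Y) → 2 ^ (m + 1) < K * n * W G S →
      W G S < 2 * TT G m → Sat G m S Y) →
    StarAt G m

/-! ## Part 3: the levels 0, 1, 2 -/

/-- **M0** (hypothesis `Goal_STAN`).  Proof.  `lev n 0 = {∅}`, so `W(Y) < W(S)` gives `Y = ∅`, and
`dn 0 ∅ = ∅` (a one-element set has an element). -/
def Goal_M0 : Prop := ∀ (n : ℕ) (G : Grp n), 1 ≤ n → StarAt G 0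

/-- **DEG** (hypothesis STB).  The graph of the pairs swapped by an element of `G`.
Proof.  Call `{u,v}` bad if some `γ ∈ G`, `γ ≠ 1`, fixes both `u` and `v`.  `w y = 1` if `y = {u,v}` has two
elements, is not bad, and some `γ ∈ G` swaps `u` and `v`; `w y = 0` otherwise.  If `y` is not bad then there
is at most one `γ` which swaps `u`, `v` (the quotient of two of them fixes both points), so
`wt G y = w y`.  If `y` is bad then `wt G y ≤ 2 K` (STB).  For given `v` the number of `u ≠ v` with `{u,v}`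
bad is at most `∑_{γ≠1, γv=v} fx γ ≤ K f`.  This gives (2) and (4).
(3): `d` = number of the involutions of `G` (`γ ≠ 1`, `γ γ = 1`).  If `w {u,v} = 1` and `γ` swaps `u`, `v` then
`γ γ` fixes both, so `γ` is an involution with `γ v = u`: `∑_u w {u,v} ≤ d`.  Conversely let `γ` be an
involution: at most `K` have `γ v = v`; if `u = γ v ≠ v` then `γ` swaps `u`, `v`, and either `{u,v}` is
bad (at most `K f` points `u`, for each at most `K` elements with `γ v = u`, STB), or `w {u,v} = 1` and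
`γ` is determined by `u`. -/
def Goal_DEG : Prop :=
  ∀ (n K f : ℕ) (G : Grp n), Nfr n K f G → ∃ (w : Finset (Fin n) → ℕ) (d : ℕ),
    (∀ y, w y ≤ 1) ∧ (∀ y ∈ lev n 2, w y ≤ wt G y) ∧
    (∀ v, ∑ u ∈ univ.erase v, w {u, v} ≤ d ∧
      d ≤ ∑ u ∈ univ.erase v, w {u, v} + (K + K ^ 2 * f)) ∧
    (∀ v, ∑ u ∈ univ.erase v, wt G {u, v} ≤ ∑ u ∈ univ.erase v, w {u, v} + 2 * K ^ 2 * f) ∧
    ∀ u v, u ≠ v → w {u, v} = 1 → ∃ γ ∈ G, γ u = v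

/-- **M1** (hypothesis DEG).  Proof.  `1 + wt G {u} = K`.  Let `S'`, `Y'` be the sets of the points `u` with
`{u} ∈ S`, `{u} ∈ Y`, `s = #S'`, `y = #Y'`; `W(S) = K s`, `W(Y) = K y`, so `y < s` and `2 y ≤ n`
(`2 W(Y) ≤ W(lev n 1)`).  `dn 1 F` = pairs of points of `F'`, `up 1 F` = pairs meeting `F'`;
`2 #(up 1 S) = s (2n-s-1)`, `2 #(dn 1 Y) = y (y-1)`.
`2 Ew(up 1 S) ≥ 2 ∑_{pairs in S'} w = ∑_{v∈S'} ∑_{u≠v} w {u,v} ≥ s (d - K - K² f)` (a pair with `w = 1` meeting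
`S'` is contained in `S'` by invariance), `2 Ew(dn 1 Y) ≤ y (d + 2 K² f)`.  So
`2 [W(up S) + W(Y) - W(dn Y) - W(S)] ≥ s (2n-s-1) - y (y-1) + d (s-y) - s (K + K² f) - 2 K² f y - 2 K (s-y)`
`≥ s (2n-s-1) - y² - 3 s K² (f+1) ≥ s (n/2 - 1) - 3 s K² (f+1) ≥ 0` (if `2 s ≤ n` use `y ≤ s`; if
`2 s > n` use `y² ≤ n²/4 ≤ n s / 2`; `K^2 (f+1)` is much smaller than `n`: `K^100 ≤ n`, `f^5 ≤ n^4`). -/
def Goal_M1 : Prop :=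
  ∃ n₀ : ℕ, ∀ n ≥ n₀, ∀ (K f : ℕ) (G : Grp n), Nfr n K f G → K ^ 100 ≤ n → f ^ 5 ≤ n ^ 4 →
    HalfStarAt G 1

/-- **M2A** (as `Goal_M2A` of SR, `Pool/Agent/Helper74/SR/M2A.lean`).  Put `D = n - 1 + d`,
`d_v = ∑_{u≠v} w {u,v} ∈ [d - δ, d]`.  For a pair `y` in a 3-set `x` put
`F(y,x) = 2D + (n-2) (3 w y - t(x))`, `t(x) = ∑_{i∈x} w (x \ i)`.  `F ≥ 2 (d+1)` always (if `w y = 0` then
`t(x) ≤ 2`).  (1) `∑_{y⊂x} F = 6D`.  (2) for `y = {u,v}`: `∑_{x⊃y} F(y,x) =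
2 (n-1)(n-2)(1 + w y) + (n-2)(2d - d_u - d_v)`, because
`∑_{j∉y} t(y ∪ j) = (n-2) w y + (d_u - w y) + (d_v - w y)`.
(a) sum (2) over `y ∈ F`: `2 (n-1)(n-2) W' ≤ ∑ ≤ 6D #(up 2 F)`.
(b) `6D #(dn 2 F) + 2 (d+1)(#(up 2 F) - #(dn 2 F)) ≤ ∑ ≤ 2 (n-1)(n-2) W' + 2 δ (n-2) #F`. -/
def Goal_M2A : Prop :=
  ∀ (n d δ : ℕ) (w : Finset (Fin n) → ℕ), 3 ≤ n → (∀ y, w y ≤ 1) →
    (∀ v, ∑ u ∈ univ.erase v, w {u, v} ≤ d ∧ d ≤ ∑ u ∈ univ.erase v, w {u, v} + δ) →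
    ∀ F ⊆ lev n 2,
      (n - 1) * (n - 2) * (#F + ∑ y ∈ F, w y) ≤ 3 * (n - 1 + d) * #(up 2 F) ∧
      3 * (n - 1 + d) * #(dn 2 F) + (d + 1) * #(up 2 F) ≤
        (n - 1) * (n - 2) * (#F + ∑ y ∈ F, w y) + δ * (n - 2) * #F + (d + 1) * #(dn 2 F)

/-- **M2S** (hypotheses `Goal_KKA`, `Goal_KKB`, `Goal_M2A` of this file).  The slack at level 2.
Proof.  Case `50 d ≥ n`: by (b) of M2A it suffices that
`(d+1) (#(up Y) - #(dn Y)) ≥ (n²/1600) #Y`.  `y₁` = number of `y ∈ Y` with `w y = 0`,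
`y₁ ≤ C(n,2) - ½ ∑_v d_v ≤ n (n-1-d+δ)/2`, so `2 #Y = y₁ + (#Y + ∑ w) ≤ n (n-1-d+δ)/2 + n (n-1+d)/4 + n² / 800`, so
`#Y ≤ 0.38 n² ≤ C(z,2)` for `z = ⌈0.9 n⌉`; KKA: `3 #(dn Y) ≤ (z-2) #Y`, KKB (`w = n`): `3 #(up Y) ≥ (n-2) #Y`, so
`#(up Y) - #(dn Y) ≥ (n/31) #Y`, `d + 1 ≥ n/50`.
Case `50 d < n`: `#Y ≤ #Y + ∑ w ≤ n (n-1+d)/4 + n²/400 ≤ 0.26 n² ≤ C(z,2)`, `z = ⌈3n/4⌉`, so
`3 (n-1+d) #(dn Y) ≤ 1.02 n * 0.76 n * #Y`, and `(n-1)(n-2) (#Y + ∑ w) ≥ 0.99 n² #Y`. -/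
def Goal_M2S : Prop :=
  ∃ n₀ : ℕ, ∀ n ≥ n₀, ∀ (d δ : ℕ) (w : Finset (Fin n) → ℕ), 10000 * δ ≤ n → (∀ y, w y ≤ 1) →
    (∀ v, ∑ u ∈ univ.erase v, w {u, v} ≤ d ∧ d ≤ ∑ u ∈ univ.erase v, w {u, v} + δ) → d ≤ n →
    ∀ Y ⊆ lev n 2, 4 * (#Y + ∑ y ∈ Y, w y) ≤ n * (n - 1 + d) + n ^ 2 / 100 →
      1600 * (3 * (n - 1 + d) * #(dn 2 Y)) + n ^ 2 * #Y ≤
        1600 * ((n - 1) * (n - 2) * (#Y + ∑ y ∈ Y, w y) + δ * (n - 2) * #Y)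

/-- **M2** (hypotheses STB, EJ, DEG, `Goal_M2A`, M2S, CLS, `Goal_KKA`, `Goal_KKB`).
Proof.  Take `w`, `d` from DEG, `δ = K + K² f`, `D = n - 1 + d`, `λ = (n-1)(n-2)`; `d ≤ n - 1` may be assumed
(`∑_u w {u,v} ≤ n - 1`; replace `d` by `min d (n-1)`, which keeps both inequalities).
`W'(F) = #F + ∑_F w ≤ W(F) ≤ W'(F) + n K² f` for `F ⊆ lev n 2` (sum (4) of DEG over `v`, every pair is
counted twice).  `K² (f+1)` is much smaller than `n` (`K^100 ≤ n`, `f^5 ≤ n^4`).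
Case 1: `#Y ≥ 10^6 n K² (f+1)`.  `2 W(Y) ≤ W(lev n 2) ≤ n (n-1+d)/2 + n K² f`, so M2S applies:
`3D #(dn Y) ≤ λ W'(Y) + δ n #Y - (n²/1600) #Y ≤ λ W'(Y) - (n²/1700) #Y`.  `W(dn Y) ≤ #(dn Y) + Ew(lev n 3)` and
EJ: `Ew(lev n 3) ≤ K n Ma n f 3 ≤ 16 K n (n + f²) ≤ 32 K n² (f+1)` (`f² ≤ n f`).  M2A (a):
`3D W(up S) ≥ 3D #(up S) ≥ λ W'(S) ≥ λ (W(S) - n K² f)`.  So
`3D [W(up S) + W(Y) - W(dn Y) - W(S)] ≥ (λ - 3D)(W(S) - W(Y)) + (n²/1700) #Y - λ n K² f - 3D * 32 K n² (f+1)`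
`≥ (n²/1700) #Y - 200 n³ K² (f+1) ≥ 0` (`3D ≤ 6n ≤ λ`).
Case 2: `#Y < 10^6 n K² (f+1)`: CLS with `s = 3K`, `j = 2`, `i = z - 2`, `z = ⌊n/(20 K²)⌋`: `Nn G 2 (3K+1) =
Nn G 3 (3K+1) = 0` by STB; `10^6 n K² (f+1) ≤ C(z,2)` because `K^6 (f+1)` is much smaller than `n`. -/
def Goal_M2 : Prop :=
  ∃ n₀ : ℕ, ∀ n ≥ n₀, ∀ (K f : ℕ) (G : Grp n), Nfr n K f G → K ^ 100 ≤ n → f ^ 5 ≤ n ^ 4 →
    HalfStarAt G 2

/-! ## Part 4: the levels `3 ≤ m ≤ n^(1/20)` -/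

/-- **N1A.** Numerical.  Proof.  Every term of `Ma n f j`, `j = m` or `m + 1`, `t = f^(p-1) n^r`,
`p + 2r ≤ j`, satisfies `t^5 ≤ n^(4j-4)` (if `p ≥ 1`: `t^5 ≤ n^(4(p-1)+5r)`; if `p = 0`: `5r ≤ 4j - 4` as
`2r ≤ j`, `j ≥ 3`), and there are at most `(m+2)²` terms.  So the left side `X` satisfies
`X^5 ≤ (2 K (m+2)^3)^5 n^10 n^(4m-4)` (first summand: `(m+1) K n (m+2)² t`, `t^5 ≤ n^(4m)`; second summand:
`n K n (m+1)² t`, `t^5 ≤ n^(4m-4)`).  On the other side `n/(4m) ≥ n/(5m)`, `z = ⌊n/(4K²(m+1)²)⌋`,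
`C(z,m) ≥ (z/m)^m` (`Nat.pow_le_choose`, or `Nat.choose` lower bounds) and `z/m ≥ n/(12 K² m³)`.
It suffices that `(10 m K (m+2)^3)^5 (12 K² m³)^(5m) ≤ n^(m-1)`.  For `m ≤ 20` this is clear for large `n`
(left side `≤ C K^(10m+5)`, `K^100 ≤ n`, `m - 1 ≥ 2`).  For `m > 20`: `K^(10 m) ≤ n^(m/10)`,
`m^(15 m) ≤ n^(3m/4)` (raise to the power 20), so the left side is at most
`12^(5m) n^(0.85 m) * C n^(1.1)`, and `12^(5m) ≤ n^(m/100)` for large `n`. -/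
def Goal_N1A : Prop :=
  ∃ n₀ : ℕ, ∀ n ≥ n₀, ∀ m K f : ℕ, 3 ≤ m → m ^ 20 ≤ n → 1 ≤ K → K ^ 100 ≤ n → f ^ 5 ≤ n ^ 4 →
    (m + 1) * (K * n * Ma n f (m + 1)) + (n - m) * (K * n * Ma n f m) ≤
      (n / (4 * m)) * (n / (4 * (K * (m + 1)) ^ 2)).choose m

/-- **N1C.** Numerical.  Proof.  All clear for large `n` (`m^20 ≤ n`, `K^100 ≤ n`); second claim: Bernoulli,
`C(n-t,m)/C(n,m) = ∏_{k<m} (1 - t/(n-k)) ≥ 1 - m t/(n-m)`, `t = n/(4m)`. -/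
def Goal_N1C : Prop :=
  ∃ n₀ : ℕ, ∀ n ≥ n₀, ∀ m K : ℕ, 3 ≤ m → m ^ 20 ≤ n → 1 ≤ K → K ^ 100 ≤ n →
    m ≤ n / (4 * (K * (m + 1)) ^ 2) ∧
    3 * n.choose m ≤ 4 * (n - n / (4 * m)).choose m ∧
    64 * (K * (m + 1)) ^ 2 * (n / (4 * (K * (m + 1)) ^ 2)) + (K * (m + 1)) * (m + 1) ≤
      63 * (n - m) ∧
    65 * ((K * (m + 1)) * (m + 1)) ≤ 63 * (n - m) ∧ 2 * (m + 1) ≤ n

/-- **R1A** (hypotheses STB, EJ, SB, CLS, `Goal_SYM`, N1A, N1C).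
Proof.  SYM.  Let `t = n/(4m)`, `s = K(m+1)`, `z = n/(4s²)`.  `TT G m ≤ t C(z,m)` by EJ and N1A; the other numerical facts are in N1C.
`(n-m) Ew(lev n m) ≤ TT ≤ t C(n,m)`, so `Ew(lev n m) ≤ C(n,m)/4`, `2 #Y ≤ 2 W(Y) ≤ W(lev n m) ≤ (5/4) C(n,m)`, hence
`#Y ≤ C(n-t,m)`.  If `TT ≤ t W(Y)`: SB with `z := n - t`.  Otherwise `t W(Y) < TT ≤ t C(z,m)`, so
`#Y ≤ W(Y) < C(z,m)`: CLS with `s`, `j = m`, `i = z - m`; `Nn G m (s+1) = Nn G (m+1) (s+1) = 0` by STB, and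
`#S ≤ C(n,m)`. -/
def Goal_R1A : Prop :=
  ∃ n₀ : ℕ, ∀ n ≥ n₀, ∀ (K f : ℕ) (G : Grp n), Nfr n K f G → K ^ 100 ≤ n → f ^ 5 ≤ n ^ 4 →
    ∀ m, 3 ≤ m → m ^ 20 ≤ n → StarAt G m

/-! ## Part 5: the levels `n^(1/20) ≤ m ≤ n^(9/10)` -/

/-- **CMB.** Proof.  `D = z - m`.  `D^m ≤ m! C(z,m)` (`Nat.pow_le_choose`), `p! C(f,p) ≤ f^p`,
`r! C(n/2,r) ≤ (n/2)^r`.  Case A: `q = p + r ≤ m`.  It suffices that `2^m f^p (n/2)^r m! ≤ n D^m p! r!`.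
`m! ≤ q! m^(m-q)`, `q! = C(q,p) p! r! ≤ 2^q p! r!`, so it suffices that `2^m (2f)^p n^r m^(m-q) ≤ n D^m`.  If
`r = 0`: `(4f)^p (2m)^(m-p) ≤ D^m`.  If `r ≥ 1`: `e = m - q - (r-1) ≥ 0`, and the left side is
`2 n (4f)^p (4 m n)^(r-1) (2m)^e ≤ 2 n D^(p + 2(r-1) + e) = 2 n D^(m-1) ≤ n D^m` (`D ≥ 2`).
Case B: otherwise `r = 0`, `p = m + 1`; `2^m f^(m+1) ≤ D^m f ≤ D^m n (m+1)` (`f ≤ z ≤ n`). -/
def Goal_CMB : Prop :=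
  ∀ n m z f p r : ℕ, 1 ≤ m → m ≤ z → z ≤ n → 4 * f ≤ z - m → 4 * (m * n) ≤ (z - m) ^ 2 →
    2 * m ≤ z - m → p + 2 * r ≤ m + 1 →
    2 ^ m * (f.choose p * (n / 2).choose r) ≤ n * z.choose m

/-- **LOG.** Powers of the logarithm are small.  Proof.  `2 ^ (Lg n) < 2 n` for `n ≥ 2`
(`Nat.pow_pred_clog_lt_self`), and `c * (l+1)^k ≤ 2^(l-1)`-type inequalities (exponential against polynomial),
or real analysis (`isLittleO_log_rpow_atTop`). -/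
def Goal_LOG : Prop := ∀ c k : ℕ, ∃ n₀ : ℕ, ∀ n ≥ n₀, c * (Lg n + 1) ^ k ≤ n

/-- **N1B** (hypothesis LOG).  Numerical, `h = 8 K Lg n`, `z = n/(4h²)`.  All inequalities between powers of `n`
follow by raising to a suitable power and LOG.  E.g. `4f ≤ z - m`: `z - m ≥ n/(5h²)` as `20 h² m ≤ n`
(10-th power: `m^10 (20h²)^10 ≤ n^9 * C K^20 Lg^20`, and `(K^20 Lg^20 C)^5 ≤ n * (C Lg^20)^5 ≤ n^5`), and
`(20 f h²)^5 ≤ n^4 * C K^10 Lg^10 ≤ n^5`; `4 m n ≤ (z-m)²` follows from `100 h⁴ m ≤ n` (10-th power: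
`m^10 ≤ n^9`, `C K^40 Lg^40 ≤ n`). -/
def Goal_N1B : Prop :=
  ∃ n₀ : ℕ, ∀ n ≥ n₀, ∀ m K f h z : ℕ, 1 ≤ m → m ^ 10 ≤ n ^ 9 → 1 ≤ K → K ^ 100 ≤ n →
    f ^ 5 ≤ n ^ 4 → h = 8 * K * Lg n → z = n / (4 * h ^ 2) →
    1 ≤ h ∧ m ≤ z ∧ z ≤ n ∧ 4 * f ≤ z - m ∧ 4 * (m * n) ≤ (z - m) ^ 2 ∧ 2 * m ≤ z - m ∧
    64 * h ^ 2 * z + h * (m + 1) ≤ 63 * (n - m) ∧ 65 * (h * (m + 1)) ≤ 63 * (n - m) ∧
    2 * (m + 1) ≤ n

/-- **N1D** (hypothesis LOG).  Numerical.  Proof.  Second claim: `l = Lg n`, `K n ≤ 2^(2l)`,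
`n + 1 ≤ 2^(l+1)`, `K (m+1)/(h+1) ≤ (m+1)/(8 l)`, so `(n+1)^(...) ≤ 2^((m+1)/4)`, and
`(K n)^(h+3) ≤ 2^(2 l (h+3))`, `100 l (h + 10) ≤ m` (20-th power: `n < m^20`,
`(100 l (8 K l + 10))^20 ≤ C l^40 K^20 ≤ n`).  The first claim is easier. -/
def Goal_N1D : Prop :=
  ∃ n₀ : ℕ, ∀ n ≥ n₀, ∀ m K h : ℕ, n < m ^ 20 → m ≤ n → 1 ≤ K → K ^ 100 ≤ n → h = 8 * K * Lg n →
    2 * (n + 1) * (K * n * (n + 2) ^ 2 * n) ≤ 2 ^ m ∧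
    64 * (K * n * ((K * n) ^ (h + 2) * (n + 1) ^ (K * (m + 1) / (h + 1)))) ≤ 2 ^ (m + 1)

/-- **R1B** (hypotheses EJ, NS, RED, CLS, CMB, N1B, N1D).
Proof.  CMB gives `2^m Mb n f j ≤ (m+2)² n C(z,m)` for `j = m, m+1`, so by EJ
`2^m Ew(lev n j) ≤ K n (n+2)² n C(z,m)`, and (N1D) `2 TT G m ≤ C(z,m)`, `n Ew(lev n m) ≤ C(z,m) ≤ 2 C(n,m)`.
RED: `#Y ≤ W(Y) < W(S) < 2 TT ≤ C(z,m)`.  CLS with `s = h`, `j = m`, `i = z - m`: `#S ≤ C(n,m)`;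
`Nn G j (h+1) ≤ (K n)^(h+2) (n+1)^(K (m+1)/(h+1))` (NS, `j = m, m+1`), and
`64 K n Nn ≤ 2^(m+1) < K n W(S)`.  The two numerical conditions are N1B times `m + 1`. -/
def Goal_R1B : Prop :=
  ∃ n₀ : ℕ, ∀ n ≥ n₀, ∀ (K f : ℕ) (G : Grp n), Nfr n K f G → K ^ 100 ≤ n → f ^ 5 ≤ n ^ 4 →
    ∀ m, n < m ^ 20 → m ^ 10 ≤ n ^ 9 → StarAt G m

/-! ## Part 6: the levels `n^(9/10) ≤ m ≤ 0.47 n` -/

/-- **RAT.** Proof.  Induction on `b`.  For `b ≥ 2h` the left side vanishes at `b + 1`.  Step for `b < 2h`: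
`C(2h,b+1) (b+1) = C(2h,b) (2h-b)` and
`C(2b+2+h,2b+2) (2b+2)(2b+1) = C(2b+h,2b) (2b+h+2)(2b+h+1)`; so one needs
`10 (2b+1)(2h-b) ≤ 4 (2b+h+2)(2b+h+1)`: with `h = 3b + t` (in `ℤ`) the difference is
`4 (t-1)² + 10 b + 4`. -/
def Goal_RAT : Prop := ∀ b h : ℕ, 5 ^ b * (2 * h).choose b ≤ 4 ^ b * (2 * b + h).choose (2 * b)

/-- **N2X** (hypothesis LOG).  Numerical.  Proof.  `l = Lg n`; `K n ≤ 2^(2l)`, `n + 1 ≤ 2^(l+1)`; take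
`t = 7 + 3(l+1) + 2f + 2l(s+1) ≤ 2f + 40(l+1)²`; `1000 s (t+2) ≤ 8000 l (2f + 50 (l+1)²) ≤ m`: 10-th powers,
`f^10 ≤ n^8`, LOG, `n^9 < m^10`. -/
def Goal_N2X : Prop :=
  ∃ n₀ : ℕ, ∀ n ≥ n₀, ∀ m K f s : ℕ, n ^ 9 < m ^ 10 → 1 ≤ K → K ^ 100 ≤ n → f ^ 5 ≤ n ^ 4 →
    s ≤ 8 * Lg n → 3 ≤ 8 * Lg n ∧
    ∃ t, 128 * (n + 1) * (4 ^ f * (K * n) ^ (s + 1) * (n + 1) ^ 2) ≤ 2 ^ t ∧
      1000 * (s * (t + 2)) ≤ m

/-- **N2S** (hypothesis N2X).  Numerical.  Proof.  `l = Lg n ≥ 1`, `s = 8 l`, `t` from N2X: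
`C(n/s, m/s) ≤ n^(m/s) ≤ 2^(l (m/(8l))) ≤ 2^(m/8)`, `K n ≤ 2^t`, `2t + m/8 ≤ m + 1`. -/
def Goal_N2S : Prop :=
  ∃ n₀ : ℕ, ∀ n ≥ n₀, ∀ m K f : ℕ, n ^ 9 < m ^ 10 → 2 * (m + 1) ≤ n → 1 ≤ K → K ^ 100 ≤ n →
    f ^ 5 ≤ n ^ 4 → K * n * (128 * (n + 1) * Bb n K f m (8 * Lg n)) ≤ 2 ^ (m + 1)

/-- **N2J** (hypothesis N2X).  Numerical.  Proof.  `b = m/s`, `a = n - m`, `t` from N2X, `j = b + t`:
`100 s (j+1) ≤ 100 m + 100 s (t+1) ≤ 101 m`.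
`C(a+j, a) = C(a+b+t, b+t) ≥ 2^t C(a+b,b)` (one step: `(c+1) C(a+c+1,c+1) = (a+c+1) C(a+c,c)`, `a ≥ c+1` as
`a ≥ 0.53 n`, `c < b + t ≤ m ≤ 0.47 n`), and `C(a+b,b) ≥ C(n/s,b)` as `n/s ≤ n/2 ≤ a`. -/
def Goal_N2J : Prop :=
  ∃ n₀ : ℕ, ∀ n ≥ n₀, ∀ m K f s : ℕ, n ^ 9 < m ^ 10 → 100 * m ≤ 47 * n → 1 ≤ K → K ^ 100 ≤ n →
    f ^ 5 ≤ n ^ 4 → 2 ≤ s → s < 8 * Lg n → ∃ j,
      128 * (n + 1) * Bb n K f m s ≤ (n - m + j).choose (n - m) ∧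
      100 * (s * (j + 1)) ≤ 101 * m

/-- **N2I** (hypotheses RAT, N2X).  Numerical.  Proof.  `b = m/s`, `i = n/(2s)`, `t` from N2X.
`C(m+i,m) = C(m+i,i) ≥ C(2b+i,i) = C(2b+i,2b)` (`2b ≤ s b ≤ m`), and by RAT
`4^b C(2b+i,2b) ≥ 5^b C(2i,b)`; `n/s ≤ 2i+1` and `C(2i+1,b) ≤ 2 C(2i,b)`
(`(2i+1-b) C(2i+1,b) = (2i+1) C(2i,b)`, `b ≤ i` as `2m ≤ n`).  So `2 * 4^b C(m+i,m) ≥ 5^b C(n/s,b)`, and
`5^b ≥ 2 * 4^b * 2^t` since `b ≥ 4(t+1)` (`5^4 ≥ 2 * 4^4`; `1000 s (t+2) ≤ m`). -/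
def Goal_N2I : Prop :=
  ∃ n₀ : ℕ, ∀ n ≥ n₀, ∀ m K f s : ℕ, n ^ 9 < m ^ 10 → 100 * m ≤ 47 * n → 1 ≤ K → K ^ 100 ≤ n →
    f ^ 5 ≤ n ^ 4 → 2 ≤ s → s < 8 * Lg n →
      128 * (n + 1) * Bb n K f m s ≤ (m + n / (2 * s)).choose m

/-- **N2H** (hypothesis N2X).  Numerical.  Proof.  Vandermonde (one term): with `b = m/2`, `b' = m - m/2`,
`a = n - n/2`: `C(n,m) ≥ C(n/2,b) C(a,b')`; `2 b' ≤ a` (`2(m+1) ≤ n`), so `C(a,b') ≥ 2^b'` (e.g.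
`C(a,b') ≥ C(2b',b') ≥ 2^b'`).  `n 4^f (K n)^3 (n+1)² ≤ 2^t` by N2X with `s = 2`, `t ≤ m/2`. -/
def Goal_N2H : Prop :=
  ∃ n₀ : ℕ, ∀ n ≥ n₀, ∀ m K f : ℕ, n ^ 9 < m ^ 10 → 2 * (m + 1) ≤ n → 1 ≤ K → K ^ 100 ≤ n →
    f ^ 5 ≤ n ^ 4 → n * Bb n K f m 2 ≤ 2 * n.choose m

/-- **R2** (hypotheses NSB, RED, CLS, N2S, N2J, N2I, N2H).
Proof.  RED (first condition: NSB, N2H).  NSB: `2 TT G m ≤ 2 (n+1) Bb 2`.  Let `s ≥ 2` be the least number with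
`128 (n+1) Bb (s+1) ≤ W(S)`; it exists and `s + 1 ≤ 8 Lg n` by N2S and `2^(m+1) < K n W(S)`.  Then
`W(S) < 128 (n+1) Bb s`: for `s = 2` because `W(S) < 2 TT`, for `s > 2` by minimality.  N2J gives `j`, N2I the bound for `i`.
CLS with `s`, `j`, `i = n/(2s)`: `#S, #Y ≤ W(S)`, `64 Nn G _ (s+1) ≤ 64 Bb (s+1) ≤ W(S)`.  Numerical conditions:
`100 s (j+1) ≤ 101 m`, `s i ≤ n/2`: `3232 n + 101 (m+1) ≤ 6300 (n-m)` and `65 * 101 m ≤ 6300 (n-m)`, true for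
`100 m ≤ 47 n`. -/
def Goal_R2 : Prop :=
  ∃ n₀ : ℕ, ∀ n ≥ n₀, ∀ (K f : ℕ) (G : Grp n), Nfr n K f G → K ^ 100 ≤ n → f ^ 5 ≤ n ^ 4 →
    ∀ m, n ^ 9 < m ^ 10 → 100 * m ≤ 47 * n → StarAt G m

/-! ## Part 7: the levels `m ≥ 0.47 n` -/

/-- **N3** (hypotheses `Goal_ENT` of SR, N2X).  Numerical.  Proof.  `C(n/2, m/2) ≤ 2^(n/2)`,
`C(n/3, m/3) ≤ 2^(n/3)`; `n^9 < m^10` for large `n`.  N2X with `s = 2`, `s = 3`: the other factors are `≤ 2^t`,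
`t ≤ n/1000`.  Second claim: `m + 1 ≥ 0.47 n > n/3 + n/1000`.  First claim: `k = n/60`, `m ≥ 28 k`, `n/6 ≥ 10 k`, so
`C(m + n/6, m) ≥ C(38k, 10k)` (increase `m` or `i` in `C(m+i, m) = C(m+i,i)`), and ENT:
`(38^38)^k ≤ (38k+1) C(38k,10k) (10^10 * 28^28)^k`, `38^38 ≥ 2^31 * 10^10 * 28^28`; `31/60 > 1/2 + 1/100`. -/
def Goal_N3 : Prop :=
  ∃ n₀ : ℕ, ∀ n ≥ n₀, ∀ m K f : ℕ, 47 * n < 100 * m → 2 * (m + 1) ≤ n → 1 ≤ K → K ^ 100 ≤ n →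
    f ^ 5 ≤ n ^ 4 → 128 * (n + 1) * Bb n K f m 2 ≤ (m + n / 6).choose m ∧
      64 * Bb n K f m 3 ≤ 2 ^ (m + 1) ∧ n ^ 9 < m ^ 10

/-- **R3** (hypotheses NSB, RED, T3, `Goal_STAN`, N2H, N3).
Proof.  RED (first condition: NSB, N2H); `#Y ≤ W(S) < 2 TT ≤ 2 (n+1) Bb 2 ≤ C(m + n/6, m)`;
`64 Nn G (m+1) 3 ≤ 64 Bb 3 ≤ 2^(m+1) ≤ W(dn Y)`; `128 (n/6) ≤ 63 (m+1)`.  T3: `W(dn Y) ≤ W(Y)`; STAN:
`W(S) ≤ W(up S)`. -/
def Goal_R3 : Prop :=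
  ∃ n₀ : ℕ, ∀ n ≥ n₀, ∀ (K f : ℕ) (G : Grp n), Nfr n K f G → K ^ 100 ≤ n → f ^ 5 ≤ n ^ 4 →
    ∀ m, 47 * n < 100 * m → 2 * (m + 1) ≤ n → StarAt G m

/-! ## Part 8: dihedral groups, final statement -/

/-- **DIH.** The dihedral group of degree `n`, generated by `i ↦ i + 1` and `i ↦ n - 1 - i`.
Proof.  By `Subgroup.closure_induction` every element `γ` satisfies, for some `c : ℕ`, either
`(γ i : ℕ) ≡ i + c [MOD n]` for all `i`, or `(γ i : ℕ) + i ≡ c [MOD n]` for all `i` (this set of permutations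
is closed under products and inverses).  In the first case `γ ≠ 1` has no fixed point, in the second
case a fixed point satisfies `2 i ≡ c`, `i < n`, so there are at most 2.  At most one `c` mod `n` of each
type fixes a given point `x`, so `stc x ≤ 2`; the powers of `finRotate n` are transitive, so `stc` is
constant (conjugation), and it is `≥ 1`. -/
def Goal_DIH : Prop :=
  ∀ n : ℕ, 3 ≤ n → ∃ K : ℕ, K ≤ 2 ∧
    Nfr n K 2 (Subgroup.closure {finRotate n, (Fin.revPerm : Equiv.Perm (Fin n))})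

end Pool.Agent.Helper49.NF
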