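import Pool.Agent.Helper49.NF.Goals

/-! # NF-M0 -/

set_option autoImplicit false

open Finset

namespace Pool.Agent.Helper49.NF

open Pool.Agent.Helper47.SR (Grp mv lev wt Ew W IsInv up dn StarAt HalfStarAt)

theorem goal_M0 (hSTAN : Pool.Agent.Helper47.SR.Goal_STAN) : Goal_M0 := by
  classical
  intro n G hn S Y hS hY iS iY hlt
  have h0 : ∀ A ∈ lev n 0, A = ∅ := fun A hA => Finset.card_eq_zero.1 (Finset.mem_powersetCard_univ.1 hA)
  have hYe : Y = ∅ := by
    by_contra hne
    obtain ⟨A, hA⟩ := Finset.nonempty_iff_ne_empty.2 hne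
    have hA0 : A = ∅ := h0 A (hY hA)
    subst hA0
    have hSY : S ⊆ Y := by
      intro B hB
      rw [h0 B (hS hB)]
      exact hA
    have : W G S ≤ W G Y := by
      unfold W
      exact Finset.sum_le_sum_of_subset hSY
    omega
  subst hYe
  have h1 : dn 0 (∅ : Finset (Finset (Fin n))) = ∅ := by
    rw [Finset.eq_empty_iff_forall_notMem]
    intro B hB
    unfold dn at hB
    rw [Finset.mem_filter] at hB
    have hc : #B = 0 + 1 := Finset.mem_powersetCard_univ.1 hB.1
    obtain ⟨a, ha⟩ := Finset.card_pos.1 (by omega : 0 < #B)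
    exact absurd (hB.2 a ha) (Finset.notMem_empty _)
  rw [h1]
  have h2 : W G (∅ : Finset (Finset (Fin n))) = 0 := by
    unfold W
    exact Finset.sum_empty
  rw [h2]
  have := hSTAN n G 0 (by omega) S hS iS
  omega

end Pool.Agent.Helper49.NF
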