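import Pool.Agent.Helper49.NF.Goals

/-! # NF-M2A: pairs and 3-sets, general weights (after Pool/Agent/Helper74/SR/M2A.lean) -/

set_option autoImplicit false

open Finset

namespace Pool.Agent.Helper49.NF

open Pool.Agent.Helper47.SR (Grp mv lev wt Ew W IsInv up dn StarAt HalfStarAt)

namespace PkM2A

/-- the degree -/
def dv {n : ℕ} (w : Finset (Fin n) → ℕ) (v : Fin n) : ℕ := ∑ u ∈ univ.erase v, w {u, v}

/-- the sum of the weights of the pairs in a 3-set -/
def tt {n : ℕ} (w : Finset (Fin n) → ℕ) (x : Finset (Fin n)) : ℕ := ∑ i ∈ x, w (x.erase i)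

theorem sum_tt {n : ℕ} (w : Finset (Fin n) → ℕ) {u v : Fin n} (huv : u ≠ v) :
    ∑ j ∈ ({u, v} : Finset (Fin n))ᶜ, tt w (insert j {u, v}) + 2 * w {u, v} =
      (n - 2) * w {u, v} + (dv w u + dv w v) := by
  classical
  have h : #({u, v} : Finset (Fin n)) = 2 := Finset.card_pair huv
  have h1 : ∀ j ∈ ({u, v} : Finset (Fin n))ᶜ, tt w (insert j {u, v}) =
      w {u, v} + (w {v, j} + w {u, j}) := by
    intro j hj
    rw [Finset.mem_compl] at hj
    have hju : j ≠ u := fun h => hj (by simp [h])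
    have hjv : j ≠ v := fun h => hj (by simp [h])
    unfold tt
    rw [Finset.sum_insert hj, Finset.erase_insert hj, Finset.sum_pair huv]
    congr 3
    · ext z
      simp only [mem_erase, mem_insert, mem_singleton]
      constructor
      · rintro ⟨a, b⟩
        tauto
      · rintro (a | a)
        · subst a; exact ⟨huv.symm, by tauto⟩
        · subst a; exact ⟨hju, by tauto⟩
    · ext z
      simp only [mem_erase, mem_insert, mem_singleton]
      constructor
      · rintro ⟨a, b⟩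
        tauto
      · rintro (a | a)
        · subst a; exact ⟨huv, by tauto⟩
        · subst a; exact ⟨hjv, by tauto⟩
  rw [Finset.sum_congr rfl h1, Finset.sum_add_distrib, Finset.sum_add_distrib, Finset.sum_const,
    Finset.card_compl, h, Fintype.card_fin, smul_eq_mul]
  have h2 : ∑ j ∈ ({u, v} : Finset (Fin n))ᶜ, w {v, j} + w {u, v} = dv w v := by
    unfold dv
    rw [← Finset.add_sum_erase (univ.erase v) (fun j => w {j, v}) (a := u)
      (Finset.mem_erase.2 ⟨huv, mem_univ _⟩), add_comm]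
    congr 1
    rw [Finset.sum_congr (s₂ := (univ.erase v).erase u) ?_ fun j _ => by rw [Finset.pair_comm v j]]
    ext z
    simp only [mem_compl, mem_insert, mem_singleton, mem_erase, mem_univ, and_true]
    tauto
  have h3 : ∑ j ∈ ({u, v} : Finset (Fin n))ᶜ, w {u, j} + w {u, v} = dv w u := by
    unfold dv
    rw [← Finset.add_sum_erase (univ.erase u) (fun j => w {j, u}) (a := v)
      (Finset.mem_erase.2 ⟨huv.symm, mem_univ _⟩), add_comm, Finset.pair_comm v u]
    congr 1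
    rw [Finset.sum_congr (s₂ := (univ.erase u).erase v) ?_ fun j _ => by rw [Finset.pair_comm u j]]
    ext z
    simp only [mem_compl, mem_insert, mem_singleton, mem_erase, mem_univ, and_true]
    tauto
  omega

/-- the flow -/
def fz {n : ℕ} (w : Finset (Fin n) → ℕ) (d : ℕ) (y x : Finset (Fin n)) : ℤ :=
  2 * ((n : ℤ) - 1 + d) + ((n : ℤ) - 2) * (3 * w y - tt w x)

theorem fz1 {n : ℕ} (w : Finset (Fin n) → ℕ) (d : ℕ) {x : Finset (Fin n)} (hx : #x = 3) :
    ∑ i ∈ x, fz w d (x.erase i) x = 6 * ((n : ℤ) - 1 + d) := by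
  unfold fz
  rw [Finset.sum_add_distrib, ← Finset.mul_sum, ← Finset.mul_sum, Finset.sum_sub_distrib,
    ← Finset.mul_sum]
  simp only [Finset.sum_const, hx, nsmul_eq_mul]
  have : ((tt w x : ℕ) : ℤ) = ∑ i ∈ x, (w (x.erase i) : ℤ) := by
    unfold tt
    push_cast
    rfl
  rw [← this]
  push_cast
  ring

theorem fz2 {n : ℕ} (w : Finset (Fin n) → ℕ) (d : ℕ) (hn : 3 ≤ n) {u v : Fin n} (huv : u ≠ v) :
    ∑ j ∈ ({u, v} : Finset (Fin n))ᶜ, fz w d {u, v} (insert j {u, v}) =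
      2 * (((n : ℤ) - 1) * (n - 2) * (1 + w {u, v})) +
        ((n : ℤ) - 2) * (2 * d - dv w u - dv w v) := by
  have hy : #({u, v} : Finset (Fin n)) = 2 := Finset.card_pair huv
  unfold fz
  rw [Finset.sum_add_distrib, ← Finset.mul_sum, ← Finset.mul_sum, Finset.sum_sub_distrib]
  simp only [Finset.sum_const, Finset.card_compl, hy, nsmul_eq_mul, Fintype.card_fin]
  have h1 : ((n - 2 : ℕ) : ℤ) = (n : ℤ) - 2 := by
    rw [Nat.cast_sub (by omega)]; rfl
  have h2 : ∑ j ∈ ({u, v} : Finset (Fin n))ᶜ, (tt w (insert j {u, v}) : ℤ) =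
      ((n : ℤ) - 2) * w {u, v} + (dv w u + dv w v) - 2 * w {u, v} := by
    have := sum_tt w huv
    have h3 : ((∑ j ∈ ({u, v} : Finset (Fin n))ᶜ, tt w (insert j {u, v}) + 2 * w {u, v} : ℕ) : ℤ) =
      (((n - 2) * w {u, v} + (dv w u + dv w v) : ℕ) : ℤ) := by rw [this]
    push_cast [h1] at h3
    linarith
  rw [h1, h2]
  ring

theorem fz3 {n : ℕ} (w : Finset (Fin n) → ℕ) (d : ℕ) (hw : ∀ y, w y ≤ 1) (hn : 3 ≤ n)
    {x : Finset (Fin n)} (hx : #x = 3) {i : Fin n} (hi : i ∈ x) :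
    2 * ((d : ℤ) + 1) ≤ fz w d (x.erase i) x := by
  have h1 : tt w x ≤ w (x.erase i) + 2 := by
    unfold tt
    rw [← Finset.add_sum_erase x (fun i => w (x.erase i)) hi]
    apply Nat.add_le_add_left
    calc ∑ j ∈ x.erase i, w (x.erase j) ≤ ∑ _j ∈ x.erase i, 1 := by
          apply Finset.sum_le_sum
          intro j hj
          exact hw _
      _ = 2 := by rw [Finset.sum_const, Finset.card_erase_of_mem hi, hx]; rfl
  have h2 : ((tt w x : ℕ) : ℤ) ≤ w (x.erase i) + 2 := by exact_mod_cast h1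
  have h3 : (0 : ℤ) ≤ (n : ℤ) - 2 := by
    have : (3 : ℤ) ≤ n := by exact_mod_cast hn
    linarith
  have h4 : (0 : ℤ) ≤ (w (x.erase i) : ℤ) := Int.natCast_nonneg _
  unfold fz
  have h6 : ((n : ℤ) - 2) * (-2) ≤ ((n : ℤ) - 2) * (3 * w (x.erase i) - tt w x) :=
    mul_le_mul_of_nonneg_left (by linarith) h3
  linarith

theorem swap {n : ℕ} (F : Finset (Finset (Fin n))) (hF : F ⊆ lev n 2)
    (f : Finset (Fin n) → Finset (Fin n) → ℤ) :
    ∑ y ∈ F, ∑ j ∈ yᶜ, f y (insert j y) =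
      ∑ x ∈ lev n (2 + 1), ∑ i ∈ x.filter (fun i => x.erase i ∈ F), f (x.erase i) x := by
  classical
  rw [Finset.sum_sigma', Finset.sum_sigma']
  refine Finset.sum_bij' (fun p _ => ⟨insert p.2 p.1, p.2⟩) (fun p _ => ⟨p.1.erase p.2, p.2⟩)
    ?_ ?_ ?_ ?_ ?_
  · rintro ⟨y, j⟩ hp
    rw [Finset.mem_sigma] at hp
    obtain ⟨h1, h2⟩ := hp
    have h2' : j ∉ y := Finset.mem_compl.1 h2
    rw [Finset.mem_sigma, Finset.mem_filter]
    refine ⟨?_, Finset.mem_insert_self _ _, ?_⟩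
    · show insert j y ∈ lev n (2 + 1)
      rw [Finset.mem_powersetCard_univ, Finset.card_insert_of_notMem h2',
        (Finset.mem_powersetCard_univ.1 (hF h1))]
    · show (insert j y).erase j ∈ F
      rw [Finset.erase_insert h2']
      exact h1
  · rintro ⟨x, i⟩ hp
    rw [Finset.mem_sigma, Finset.mem_filter] at hp
    obtain ⟨h1, h2, h3⟩ := hp
    rw [Finset.mem_sigma]
    exact ⟨h3, Finset.mem_compl.2 (Finset.notMem_erase _ _)⟩
  · rintro ⟨y, j⟩ hp
    rw [Finset.mem_sigma] at hp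
    have h2' : j ∉ y := Finset.mem_compl.1 hp.2
    simp only
    rw [Finset.erase_insert h2']
  · rintro ⟨x, i⟩ hp
    rw [Finset.mem_sigma, Finset.mem_filter] at hp
    simp only
    rw [Finset.insert_erase hp.2.1]
  · rintro ⟨y, j⟩ hp
    rw [Finset.mem_sigma] at hp
    have h2' : j ∉ y := Finset.mem_compl.1 hp.2
    simp only
    rw [Finset.erase_insert h2']

end PkM2A

open PkM2A

theorem goal_M2A : Goal_M2A := by
  classical
  intro n d δ w hn hw hdeg F hF
  set D : ℤ := (n : ℤ) - 1 + d with hD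
  have hn' : (3 : ℤ) ≤ n := by exact_mod_cast hn
  have hdeg' : ∀ v, dv w v ≤ d ∧ d ≤ dv w v + δ := hdeg
  set W' : ℕ := #F + ∑ y ∈ F, w y with hW'
  have eW : (W' : ℤ) = ∑ y ∈ F, (1 + (w y : ℤ)) := by
    rw [hW', Finset.sum_add_distrib]
    push_cast
    simp
  set T : ℤ := ∑ x ∈ lev n (2 + 1), ∑ i ∈ x.filter (fun i => x.erase i ∈ F), fz w d (x.erase i) x
    with hT
  have hy2 : ∀ y ∈ F, 2 * (((n : ℤ) - 1) * (n - 2) * (1 + w y)) ≤ ∑ j ∈ yᶜ, fz w d y (insert j y) ∧
      ∑ j ∈ yᶜ, fz w d y (insert j y) ≤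
        2 * (((n : ℤ) - 1) * (n - 2) * (1 + w y)) + ((n : ℤ) - 2) * (2 * δ) := by
    intro y hy
    obtain ⟨u, v, huv, rfl⟩ := Finset.card_eq_two.1 (Finset.mem_powersetCard_univ.1 (hF hy))
    rw [fz2 w d hn huv]
    have a1 : ((dv w u : ℕ) : ℤ) ≤ d := by exact_mod_cast (hdeg' u).1
    have a2 : ((dv w v : ℕ) : ℤ) ≤ d := by exact_mod_cast (hdeg' v).1
    have a3 : (d : ℤ) ≤ dv w u + δ := by exact_mod_cast (hdeg' u).2
    have a4 : (d : ℤ) ≤ dv w v + δ := by exact_mod_cast (hdeg' v).2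
    have h3 : (0 : ℤ) ≤ (n : ℤ) - 2 := by linarith
    constructor
    · have : 0 ≤ ((n : ℤ) - 2) * (2 * d - dv w u - dv w v) := mul_nonneg h3 (by linarith)
      linarith
    · have : ((n : ℤ) - 2) * (2 * d - dv w u - dv w v) ≤ ((n : ℤ) - 2) * (2 * δ) :=
        mul_le_mul_of_nonneg_left (by linarith) h3
      linarith
  have e1 : 2 * (((n : ℤ) - 1) * (n - 2) * (W' : ℤ)) ≤ T := by
    rw [hT, ← swap F hF (fz w d), eW]
    calc 2 * (((n : ℤ) - 1) * (n - 2) * ∑ y ∈ F, (1 + (w y : ℤ)))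
        = ∑ y ∈ F, 2 * (((n : ℤ) - 1) * (n - 2) * (1 + w y)) := by
          rw [Finset.mul_sum, Finset.mul_sum]
      _ ≤ _ := Finset.sum_le_sum fun y hy => (hy2 y hy).1
  have e1' : T ≤ 2 * (((n : ℤ) - 1) * (n - 2) * (W' : ℤ)) + #F * (((n : ℤ) - 2) * (2 * δ)) := by
    rw [hT, ← swap F hF (fz w d), eW]
    calc _ ≤ ∑ y ∈ F, (2 * (((n : ℤ) - 1) * (n - 2) * (1 + w y)) +
            ((n : ℤ) - 2) * (2 * δ)) := Finset.sum_le_sum fun y hy => (hy2 y hy).2
      _ = 2 * (((n : ℤ) - 1) * (n - 2) * ∑ y ∈ F, (1 + (w y : ℤ))) +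
            #F * (((n : ℤ) - 2) * (2 * δ)) := by
          rw [Finset.sum_add_distrib, Finset.mul_sum, Finset.mul_sum, Finset.sum_const,
            nsmul_eq_mul]
  have hcard : ∀ x ∈ lev n (2 + 1), #x = 3 := fun x hx => Finset.mem_powersetCard_univ.1 hx
  have hd0 : (0 : ℤ) ≤ d := Int.natCast_nonneg _
  have hnn : ∀ x ∈ lev n (2 + 1), ∀ i ∈ x, 2 * ((d : ℤ) + 1) ≤ fz w d (x.erase i) x :=
    fun x hx i hi => fz3 w d hw hn (hcard x hx) hi
  have hup : up 2 F ⊆ lev n (2 + 1) := Finset.filter_subset _ _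
  have hdn : dn 2 F ⊆ up 2 F := by
    intro x hx
    unfold dn at hx
    unfold up
    rw [Finset.mem_filter] at hx ⊢
    refine ⟨hx.1, ?_⟩
    have : x.Nonempty := by
      rw [← Finset.card_pos, hcard x hx.1]
      norm_num
    obtain ⟨a, ha⟩ := this
    exact ⟨a, ha, hx.2 a ha⟩
  have e2 : T = ∑ x ∈ up 2 F, ∑ i ∈ x.filter (fun i => x.erase i ∈ F), fz w d (x.erase i) x := by
    symm
    apply Finset.sum_subset hup
    intro x hx hx'
    have : x.filter (fun i => x.erase i ∈ F) = ∅ := by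
      rw [Finset.filter_eq_empty_iff]
      intro i hi hh
      apply hx'
      unfold up
      rw [Finset.mem_filter]
      exact ⟨hx, i, hi, hh⟩
    rw [this, Finset.sum_empty]
  constructor
  · have h1 : T ≤ 6 * D * #(up 2 F) := by
      rw [e2]
      calc ∑ x ∈ up 2 F, ∑ i ∈ x.filter (fun i => x.erase i ∈ F), fz w d (x.erase i) x
          ≤ ∑ x ∈ up 2 F, 6 * D := by
            apply Finset.sum_le_sum
            intro x hx
            rw [← fz1 w d (hcard x (hup hx))]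
            apply Finset.sum_le_sum_of_subset_of_nonneg (Finset.filter_subset _ _)
            intro i hi _
            have := hnn x (hup hx) i hi
            linarith
        _ = 6 * D * #(up 2 F) := by rw [Finset.sum_const, nsmul_eq_mul]; ring
    have h2 : (((n - 1) * (n - 2) * W' : ℕ) : ℤ) ≤
        ((3 * (n - 1 + d) * #(up 2 F) : ℕ) : ℤ) := by
      push_cast [Nat.cast_sub (show 1 ≤ n by omega), Nat.cast_sub (show 2 ≤ n by omega)]
      rw [hD] at h1
      linarith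
    exact_mod_cast h2
  · have h1 : 6 * D * #(dn 2 F) + 2 * ((d : ℤ) + 1) * ((#(up 2 F) : ℤ) - #(dn 2 F)) ≤ T := by
      rw [e2, ← Finset.sum_sdiff hdn]
      have h3 : (6 : ℤ) * D * #(dn 2 F) =
          ∑ x ∈ dn 2 F, ∑ i ∈ x.filter (fun i => x.erase i ∈ F), fz w d (x.erase i) x := by
        have : ∀ x ∈ dn 2 F, ∑ i ∈ x.filter (fun i => x.erase i ∈ F), fz w d (x.erase i) x
            = 6 * D := by
          intro x hx
          have hx' := hx
          unfold dn at hx'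
          rw [Finset.mem_filter] at hx'
          rw [Finset.filter_true_of_mem hx'.2, fz1 w d (hcard x hx'.1)]
        rw [Finset.sum_congr rfl this, Finset.sum_const, nsmul_eq_mul]
        ring
      have h4 : 2 * ((d : ℤ) + 1) * ((#(up 2 F) : ℤ) - #(dn 2 F)) ≤
          ∑ x ∈ up 2 F \ dn 2 F,
            ∑ i ∈ x.filter (fun i => x.erase i ∈ F), fz w d (x.erase i) x := by
        have h5 : ∑ _x ∈ up 2 F \ dn 2 F, (2 * ((d : ℤ) + 1)) =
            2 * ((d : ℤ) + 1) * ((#(up 2 F) : ℤ) - #(dn 2 F)) := by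
          rw [Finset.sum_const, nsmul_eq_mul, Finset.card_sdiff_of_subset hdn,
            Nat.cast_sub (Finset.card_le_card hdn)]
          ring
        rw [← h5]
        apply Finset.sum_le_sum
        intro x hx
        rw [Finset.mem_sdiff] at hx
        have hx' := hx.1
        unfold up at hx'
        rw [Finset.mem_filter] at hx'
        obtain ⟨hx1, a, ha, ha'⟩ := hx'
        have h6 : a ∈ x.filter (fun i => x.erase i ∈ F) := Finset.mem_filter.2 ⟨ha, ha'⟩
        refine (hnn x hx1 a ha).trans ?_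
        apply Finset.single_le_sum (f := fun i => fz w d (x.erase i) x) _ h6
        intro i hi
        have := hnn x hx1 i (Finset.mem_filter.1 hi).1
        linarith
      rw [h3]
      linarith
    have h2 : ((3 * (n - 1 + d) * #(dn 2 F) + (d + 1) * #(up 2 F) : ℕ) : ℤ) ≤
        (((n - 1) * (n - 2) * W' + δ * (n - 2) * #F + (d + 1) * #(dn 2 F) : ℕ) : ℤ) := by
      push_cast [Nat.cast_sub (show 1 ≤ n by omega), Nat.cast_sub (show 2 ≤ n by omega)]
      rw [hD] at h1
      have h7 : 2 * (3 * ((n : ℤ) - 1 + d) * #(dn 2 F) + ((d : ℤ) + 1) * #(up 2 F)) ≤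
          2 * (((n : ℤ) - 1) * (n - 2) * W' + δ * (n - 2) * #F + (d + 1) * #(dn 2 F)) := by
        have h8 := h1.trans e1'
        have e3 : 6 * ((n : ℤ) - 1 + d) * #(dn 2 F) +
            2 * ((d : ℤ) + 1) * ((#(up 2 F) : ℤ) - #(dn 2 F)) =
          2 * (3 * ((n : ℤ) - 1 + d) * #(dn 2 F) + ((d : ℤ) + 1) * #(up 2 F)) -
            2 * ((d + 1) * #(dn 2 F)) := by ring
        have e4 : 2 * (((n : ℤ) - 1) * (n - 2) * (W' : ℤ)) + #F * (((n : ℤ) - 2) * (2 * δ)) =
          2 * (((n : ℤ) - 1) * (n - 2) * W' + δ * (n - 2) * #F + (d + 1) * #(dn 2 F)) -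
            2 * ((d + 1) * #(dn 2 F)) := by ring
        rw [e3, e4] at h8
        linarith
      linarith
    exact_mod_cast h2

end Pool.Agent.Helper49.NF
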