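import Pool.Agent.Helper49.NF.Final
import Pool.Agent.Helper49.NF.M0
import Pool.Agent.Helper49.NF.M2A
import Pool.Agent.Helper17.NF.CLS
import Pool.Agent.Helper2.NF.M2
import Pool.Agent.Helper24.NF.EJ
import Pool.Agent.Helper24.NF.LOG
import Pool.Agent.Helper31.NF.N2H
import Pool.Agent.Helper31.NF.STB
import Pool.Agent.Helper33.NF.DEG
import Pool.Agent.Helper33.NF.N3
import Pool.Agent.Helper34.NF.NSB
import Pool.Agent.Helper38.NF.N2S
import Pool.Agent.Helper39.NF.N1A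
import Pool.Agent.Helper39.NF.N1D
import Pool.Agent.Helper40.NF.R1B
import Pool.Agent.Helper41.NF.N1C
import Pool.Agent.Helper42.NF.N2X
import Pool.Agent.Helper59.NF.T3
import Pool.Agent.Helper60.NF.DIH
import Pool.Agent.Helper62.NF.M2S
import Pool.Agent.Helper69.NF.ORBK
import Pool.Agent.Helper76.NF.N2I
import Pool.Agent.Helper76.NF.N2J
import Pool.Agent.Helper76.NF.RAT
import Pool.Agent.Helper77.NF.ORBC
import Pool.Agent.Helper79.NF.M1
import Pool.Agent.Helper79.NF.R1A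
import Pool.Agent.Helper8.NF.R2
import Pool.Agent.Helper84.NF.R3
import Pool.Agent.Helper86.NF.RED
import Pool.Agent.Helper88.NF.CMB
import Pool.Agent.Helper88.NF.CYC
import Pool.Agent.Helper9.NF.N1B
import Pool.Agent.Helper90.NF.SB
import Pool.Agent.Helper94.NF.NS

/-!
# Project NF: final assembly
-/

set_option autoImplicit false

namespace Pool.Agent.Helper49.NF

theorem final_main :
    ∃ n₀ : ℕ,
      (∀ n ≥ n₀, ∀ G : Subgroup (Equiv.Perm (Fin n)),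
        (∀ x y, stc G x = stc G y) → (∀ x, stc G x ^ 100 ≤ n) →
        (∀ γ ∈ G, γ ≠ 1 → fx γ ^ 5 ≤ n ^ 4) → Pool.Agent.Helper47.SR.QuotientHasSCD n G) ∧
      ∀ n ≥ n₀, Pool.Agent.Helper47.SR.QuotientHasSCD n
        (Subgroup.closure {finRotate n, (Fin.revPerm : Equiv.Perm (Fin n))}) := by
  have hKKA : Pool.Agent.Helper47.SR.Goal_KKA := Pool.Agent.Helper68.SR.goal_KKA
  have hKKB : Pool.Agent.Helper47.SR.Goal_KKB := Pool.Agent.Helper68.SR.goal_KKB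
  have hORB : Pool.Agent.Helper47.SR.Goal_ORB := Pool.Agent.Helper47.SR.goal_ORB
  have hLA : Pool.Agent.Helper47.SR.Goal_LA := Pool.Agent.Helper47.SR.goal_LA hORB
  have hSTAN : Pool.Agent.Helper47.SR.Goal_STAN :=
    Pool.Agent.Helper47.SR.goal_STAN hLA Pool.Agent.Helper47.SR.goal_UINJ
  have hTR2 : Pool.Agent.Helper47.SR.Goal_TR2 :=
    Pool.Agent.Helper85.SR.goal_TR2 hLA Pool.Agent.Helper47.SR.goal_TRADE
  have hSYM : Pool.Agent.Helper47.SR.Goal_SYM := Pool.Agent.Helper47.SR.goal_SYM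
  have hENT : Pool.Agent.Helper47.SR.Goal_ENT := Pool.Agent.Helper5.SR.goal_ENT
  have hSTB : Goal_STB := Pool.Agent.Helper31.NF.goal_STB
  have hCYC : Goal_CYC := Pool.Agent.Helper88.NF.goal_CYC
  have hEJ : Goal_EJ := Pool.Agent.Helper24.NF.goal_EJ hSTB hCYC
  have hNS : Goal_NS := Pool.Agent.Helper94.NF.goal_NS hSTB Pool.Agent.Helper77.NF.goal_ORBC
    Pool.Agent.Helper69.NF.goal_ORBK
  have hNSB : Goal_NSB := Pool.Agent.Helper34.NF.goal_NSB hNS
  have hSB : Goal_SB := Pool.Agent.Helper90.NF.goal_SB hKKA hKKB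
  have hCLS : Goal_CLS := Pool.Agent.Helper17.NF.goal_CLS hKKA hKKB
  have hRED : Goal_RED := Pool.Agent.Helper86.NF.goal_RED hSTB hSB hSYM hSTAN hTR2 hKKA
  have hDEG : Goal_DEG := Pool.Agent.Helper33.NF.goal_DEG hSTB
  have hM1 : Goal_M1 := Pool.Agent.Helper79.NF.goal_M1 hDEG
  have hM2S : Goal_M2S := Pool.Agent.Helper62.NF.goal_M2S hKKA hKKB goal_M2A
  have hM2 : Goal_M2 := Pool.Agent.Helper2.NF.goal_M2 hSTB hEJ hDEG goal_M2A hM2S hCLS
  have hR1A : Goal_R1A := Pool.Agent.Helper79.NF.goal_R1A hSTB hEJ hSB hCLS hSYM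
    Pool.Agent.Helper39.NF.goal_N1A Pool.Agent.Helper41.NF.goal_N1C
  have hLOG : Goal_LOG := Pool.Agent.Helper24.NF.goal_LOG
  have hN2X : Goal_N2X := Pool.Agent.Helper42.NF.goal_N2X hLOG
  have hR1B : Goal_R1B := Pool.Agent.Helper40.NF.goal_R1B hEJ hNS hRED hCLS
    Pool.Agent.Helper88.NF.goal_CMB (Pool.Agent.Helper9.NF.goal_N1B hLOG)
    (Pool.Agent.Helper39.NF.goal_N1D hLOG)
  have hN2H : Goal_N2H := Pool.Agent.Helper31.NF.goal_N2H hN2X
  have hR2 : Goal_R2 := Pool.Agent.Helper8.NF.goal_R2 hNSB hRED hCLS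
    (Pool.Agent.Helper38.NF.goal_N2S hN2X) (Pool.Agent.Helper76.NF.goal_N2J hN2X)
    (Pool.Agent.Helper76.NF.goal_N2I Pool.Agent.Helper76.NF.goal_RAT hN2X) hN2H
  have hR3 : Goal_R3 := Pool.Agent.Helper84.NF.goal_R3 hNSB hRED
    (Pool.Agent.Helper59.NF.goal_T3 hKKA) hSTAN hN2H (Pool.Agent.Helper33.NF.goal_N3 hENT hN2X)
  exact final_of (star_all (goal_M0 hSTAN) hM1 hM2 hR1A hR1B hR2 hR3 hSYM)
    (Pool.Agent.Helper47.SR.goal_BASE
      (Pool.Agent.Helper60.SR.goal_STEP Pool.Agent.Helper47.SR.goal_CT))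
    Pool.Agent.Helper47.SR.goal_CONV Pool.Agent.Helper47.SR.goal_QSYM
    (Pool.Agent.Helper71.SR.goal_QST hORB) (Pool.Agent.Helper47.SR.goal_QMID hORB hSTAN)
    Pool.Agent.Helper60.NF.goal_DIH

end Pool.Agent.Helper49.NF
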