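import Pool.Agent.Helper49.NF.Goals
import Pool.Agent.Helper47.SR.Final

/-!
# Project NF: final assembly
-/

set_option autoImplicit false

namespace Pool.Agent.Helper49.NF

open Finset
open Pool.Agent.Helper47.SR (Grp mv lev wt Ew W IsInv up dn StarAt HalfStarAt)

theorem star_all (hM0 : Goal_M0) (hM1 : Goal_M1) (hM2 : Goal_M2) (h1A : Goal_R1A) (h1B : Goal_R1B)
    (h2 : Goal_R2) (h3 : Goal_R3) (hSYM : Pool.Agent.Helper47.SR.Goal_SYM) :
    ∃ n₀ : ℕ, ∀ n ≥ n₀, ∀ (K f : ℕ) (G : Grp n), Nfr n K f G → K ^ 100 ≤ n → f ^ 5 ≤ n ^ 4 →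
      ∀ m, 2 * (m + 1) ≤ n → StarAt G m := by
  obtain ⟨a1, hM1⟩ := hM1
  obtain ⟨a2, hM2⟩ := hM2
  obtain ⟨a3, h1A⟩ := h1A
  obtain ⟨a4, h1B⟩ := h1B
  obtain ⟨a5, h2⟩ := h2
  obtain ⟨a6, h3⟩ := h3
  refine ⟨a1 + a2 + a3 + a4 + a5 + a6 + 1, fun n hn K f G hG hK hf m hm => ?_⟩
  rcases Nat.lt_or_ge m 3 with hm3 | hm3
  · interval_cases m
    · exact hM0 n G (by omega)
    · exact hSYM n G 1 (hM1 n (by omega) K f G hG hK hf)
    · exact hSYM n G 2 (hM2 n (by omega) K f G hG hK hf)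
  rcases Nat.lt_or_ge n (m ^ 20) with hA | hA
  · rcases Nat.lt_or_ge (n ^ 9) (m ^ 10) with hB | hB
    · rcases Nat.lt_or_ge (47 * n) (100 * m) with hC | hC
      · exact h3 n (by omega) K f G hG hK hf m hC hm
      · exact h2 n (by omega) K f G hG hK hf m hB hC
    · exact h1B n (by omega) K f G hG hK hf m hA hB
  · exact h1A n (by omega) K f G hG hK hf m hm3 hA

end Pool.Agent.Helper49.NF
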